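import Mathlib
import Pool.Agent.Helper47.QH.Defs

/-!
# Quantitative Helly theorem for the diameter: QH-2 (sampling)

Derandomised choice of `N ≥ d log (8 d)` contact points of a system in John position.
-/

set_option autoImplicit false

namespace Pool.Agent.Helper28.QH

open scoped BigOperators RealInnerProductSpace
open Pool.Agent.Helper47.QH

namespace Aux

variable {d : ℕ} {ι : Type} [Fintype ι]

/-- One projection step, as a linear map. -/
noncomputable def stp (J : JohnSys d ι) (i : ι) :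
    EuclideanSpace ℝ (Fin d) →ₗ[ℝ] EuclideanSpace ℝ (Fin d) :=
  LinearMap.id - ((innerₛₗ ℝ (J.u i)).smulRight (J.u i))

theorem stp_apply (J : JohnSys d ι) (i : ι) (z : EuclideanSpace ℝ (Fin d)) :
    stp J i z = z - ⟪J.u i, z⟫ • J.u i := by
  simp [stp]

/-- Iterated projections, newest index at the head of the list. -/
noncomputable def zz (J : JohnSys d ι) : List ι →
    (EuclideanSpace ℝ (Fin d) →ₗ[ℝ] EuclideanSpace ℝ (Fin d))
  | [] => LinearMap.id
  | i :: l => (stp J i).comp (zz J l)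

theorem zz_nil (J : JohnSys d ι) (w : EuclideanSpace ℝ (Fin d)) : zz J [] w = w := rfl

theorem zz_cons (J : JohnSys d ι) (i : ι) (l : List ι) (w : EuclideanSpace ℝ (Fin d)) :
    zz J (i :: l) w = zz J l w - ⟪J.u i, zz J l w⟫ • J.u i := by
  simp [zz, stp_apply]

theorem normSq_sub (J : JohnSys d ι) (i : ι) (z : EuclideanSpace ℝ (Fin d)) :
    ‖z - ⟪J.u i, z⟫ • J.u i‖ ^ 2 = ‖z‖ ^ 2 - ⟪J.u i, z⟫ ^ 2 := by
  rw [norm_sub_sq_real, norm_smul, J.u_norm i, inner_smul_right, real_inner_comm z (J.u i)]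
  simp only [Real.norm_eq_abs, mul_one, sq_abs]
  ring

theorem kaczmarz (J : JohnSys d ι) (l : List ι) (w : EuclideanSpace ℝ (Fin d)) :
    2 * ⟪w, w - zz J l w⟫ ≤ (‖w‖ ^ 2 - ‖zz J l w‖ ^ 2) / 2
      + 2 * (l.map (fun i => ⟪J.u i, w⟫ ^ 2)).sum := by
  induction l with
  | nil => simp [zz_nil]
  | cons i l ih =>
    rw [zz_cons, normSq_sub, List.map_cons, List.sum_cons]
    have h1 : w - (zz J l w - ⟪J.u i, zz J l w⟫ • J.u i)
        = (w - zz J l w) + ⟪J.u i, zz J l w⟫ • J.u i := by abel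
    rw [h1, inner_add_right, inner_smul_right, real_inner_comm (J.u i) w]
    nlinarith [sq_nonneg (⟪J.u i, zz J l w⟫ - 2 * ⟪J.u i, w⟫)]

/-- Frobenius functional. -/
noncomputable def FF (J : JohnSys d ι) (l : List ι) : ℝ :=
  ∑ m : Fin d, ‖zz J l (EuclideanSpace.single m (1 : ℝ))‖ ^ 2

/-- Exponential functional. -/
noncomputable def GG (J : JohnSys d ι) (l : List ι) : ℝ :=
  ∑ i, J.c i * Real.exp ⟪J.u i, (l.map J.u).sum⟫

theorem FF_nil (J : JohnSys d ι) : FF J [] = d := by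
  simp [FF, zz_nil]

theorem GG_nil (J : JohnSys d ι) : GG J [] = 1 := by
  simp [GG, J.c_sum]

theorem avg_F (J : JohnSys d ι) (l : List ι) :
    ∑ i, J.c i * FF J (i :: l) = (1 - 1 / (d : ℝ)) * FF J l := by
  have h1 : ∀ i, J.c i * FF J (i :: l)
      = ∑ m : Fin d, (J.c i * ‖zz J l (EuclideanSpace.single m (1 : ℝ))‖ ^ 2
        - J.c i * ⟪J.u i, zz J l (EuclideanSpace.single m (1 : ℝ))⟫ ^ 2) := by
    intro i
    unfold FF
    rw [Finset.mul_sum]
    refine Finset.sum_congr rfl fun m _ => ?_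
    rw [zz_cons, normSq_sub]
    ring
  rw [Finset.sum_congr rfl fun i _ => h1 i, Finset.sum_comm]
  unfold FF
  rw [Finset.mul_sum]
  refine Finset.sum_congr rfl fun m _ => ?_
  rw [Finset.sum_sub_distrib, J.iso, ← Finset.sum_mul, J.c_sum]
  ring

theorem avg_exp (J : JohnSys d ι) (v : EuclideanSpace ℝ (Fin d)) (hv : ‖v‖ = 1) :
    ∑ i, J.c i * Real.exp ⟪v, J.u i⟫ ≤ 1 + 1 / (d : ℝ) := by
  have h1 : ∀ i, J.c i * Real.exp ⟪v, J.u i⟫
      ≤ J.c i + J.c i * ⟪v, J.u i⟫ + J.c i * ⟪J.u i, v⟫ ^ 2 := by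
    intro i
    have h2 : |⟪v, J.u i⟫| ≤ 1 := by
      have := abs_real_inner_le_norm v (J.u i)
      rwa [hv, J.u_norm, mul_one] at this
    have h3 := Real.abs_exp_sub_one_sub_id_le h2
    have h4 := (abs_le.mp h3).2
    have h5 : Real.exp ⟪v, J.u i⟫ ≤ 1 + ⟪v, J.u i⟫ + ⟪v, J.u i⟫ ^ 2 := by linarith
    have h6 := mul_le_mul_of_nonneg_left h5 (J.c_nonneg i)
    rw [real_inner_comm v (J.u i)] at *
    linarith
  refine (Finset.sum_le_sum fun i _ => h1 i).trans ?_
  rw [Finset.sum_add_distrib, Finset.sum_add_distrib, J.c_sum, J.iso, hv]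
  have h7 : ∑ i, J.c i * ⟪v, J.u i⟫ = 0 := by
    have h8 : ∑ i, J.c i * ⟪v, J.u i⟫ = ⟪v, ∑ i, J.c i • J.u i⟫ := by
      rw [inner_sum]
      refine Finset.sum_congr rfl fun i _ => ?_
      rw [inner_smul_right]
    rw [h8, J.centred, inner_zero_right]
  rw [h7]
  norm_num

theorem avg_G (J : JohnSys d ι) (l : List ι) :
    ∑ i, J.c i * GG J (i :: l) ≤ (1 + 1 / (d : ℝ)) * GG J l := by
  have h1 : ∀ i, J.c i * GG J (i :: l)
      = ∑ j, (J.c j * Real.exp ⟪J.u j, (l.map J.u).sum⟫) * (J.c i * Real.exp ⟪J.u j, J.u i⟫) := by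
    intro i
    unfold GG
    rw [Finset.mul_sum]
    refine Finset.sum_congr rfl fun j _ => ?_
    rw [List.map_cons, List.sum_cons, inner_add_right, Real.exp_add]
    ring
  rw [Finset.sum_congr rfl fun i _ => h1 i, Finset.sum_comm]
  unfold GG
  rw [Finset.mul_sum]
  refine Finset.sum_le_sum fun j _ => ?_
  rw [← Finset.mul_sum, mul_comm (1 + 1 / (d : ℝ))]
  exact mul_le_mul_of_nonneg_left (avg_exp J (J.u j) (J.u_norm j))
    (mul_nonneg (J.c_nonneg j) (Real.exp_pos _).le)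

theorem exists_le_avg (J : JohnSys d ι) (f : ι → ℝ) (B : ℝ)
    (h : ∑ i, J.c i * f i ≤ B) : ∃ i, f i ≤ B := by
  by_contra hcon
  push Not at hcon
  have h1 : ∃ i ∈ (Finset.univ : Finset ι), 0 < J.c i := by
    by_contra h2
    push Not at h2
    have h3 : ∑ i, J.c i ≤ 0 := Finset.sum_nonpos fun i hi => h2 i hi
    rw [J.c_sum] at h3
    linarith
  obtain ⟨i₀, hi₀, hc⟩ := h1
  have h4 : ∑ i, J.c i * B < ∑ i, J.c i * f i := by
    refine Finset.sum_lt_sum (fun i _ => ?_) ⟨i₀, hi₀, ?_⟩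
    · exact mul_le_mul_of_nonneg_left (hcon i).le (J.c_nonneg i)
    · exact mul_lt_mul_of_pos_left (hcon i₀) hc
  rw [← Finset.sum_mul, J.c_sum] at h4
  linarith

theorem FF_nonneg (J : JohnSys d ι) (l : List ι) : 0 ≤ FF J l :=
  Finset.sum_nonneg fun _ _ => by positivity

theorem GG_nonneg (J : JohnSys d ι) (l : List ι) : 0 ≤ GG J l :=
  Finset.sum_nonneg fun i _ => mul_nonneg (J.c_nonneg i) (Real.exp_pos _).le

theorem exists_list (hd : 0 < d) (J : JohnSys d ι) (n : ℕ) :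
    ∃ l : List ι, l.length = n ∧
      (1 + 1 / (d : ℝ)) ^ n * FF J l + d * Real.exp (-1 / d) ^ n * GG J l
        ≤ 2 * d * (Real.exp (-1 / d) * (1 + 1 / (d : ℝ))) ^ n := by
  have hd' : (0 : ℝ) < d := by exact_mod_cast hd
  induction n with
  | zero =>
    refine ⟨[], rfl, ?_⟩
    rw [FF_nil, GG_nil]
    simp
    linarith
  | succ n ih =>
    obtain ⟨l, hl, h⟩ := ih
    set q : ℝ := Real.exp (-1 / d) with hq
    set r : ℝ := 1 + 1 / (d : ℝ) with hr
    have hq0 : 0 < q := Real.exp_pos _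
    have hr0 : 0 < r := by positivity
    have hqge : 1 - 1 / (d : ℝ) ≤ q := by
      have := Real.add_one_le_exp (-1 / (d : ℝ))
      rw [← hq] at this
      have h2 : -1 / (d : ℝ) + 1 = 1 - 1 / (d : ℝ) := by ring
      linarith
    have havg : ∑ i, J.c i * (r ^ (n + 1) * FF J (i :: l) + d * q ^ (n + 1) * GG J (i :: l))
        ≤ 2 * d * (q * r) ^ (n + 1) := by
      have h1 : ∑ i, J.c i * (r ^ (n + 1) * FF J (i :: l) + d * q ^ (n + 1) * GG J (i :: l))
          = r ^ (n + 1) * ∑ i, J.c i * FF J (i :: l)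
            + d * q ^ (n + 1) * ∑ i, J.c i * GG J (i :: l) := by
        rw [Finset.mul_sum, Finset.mul_sum, ← Finset.sum_add_distrib]
        refine Finset.sum_congr rfl fun i _ => ?_
        ring
      rw [h1, avg_F]
      have h2 := avg_G J l
      have h3 : (1 - 1 / (d : ℝ)) * FF J l ≤ q * FF J l :=
        mul_le_mul_of_nonneg_right hqge (FF_nonneg J l)
      have h4 : r ^ (n + 1) * ((1 - 1 / (d : ℝ)) * FF J l) ≤ r ^ (n + 1) * (q * FF J l) :=
        mul_le_mul_of_nonneg_left h3 (by positivity)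
      have h5 : d * q ^ (n + 1) * ∑ i, J.c i * GG J (i :: l) ≤ d * q ^ (n + 1) * (r * GG J l) :=
        mul_le_mul_of_nonneg_left h2 (by positivity)
      have h6 := mul_le_mul_of_nonneg_left h (mul_pos hq0 hr0).le
      calc _ ≤ r ^ (n + 1) * (q * FF J l) + d * q ^ (n + 1) * (r * GG J l) := add_le_add h4 h5
        _ = q * r * (r ^ n * FF J l + d * q ^ n * GG J l) := by ring
        _ ≤ q * r * (2 * d * (q * r) ^ n) := h6
        _ = 2 * d * (q * r) ^ (n + 1) := by ring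
    obtain ⟨i, hi⟩ := exists_le_avg J _ _ havg
    exact ⟨i :: l, by simp [hl], hi⟩

theorem norm_zz_le (J : JohnSys d ι) (l : List ι) (w : EuclideanSpace ℝ (Fin d)) :
    ‖zz J l w‖ ^ 2 ≤ FF J l * ‖w‖ ^ 2 := by
  have h1 : w = ∑ m : Fin d, w m • EuclideanSpace.single m (1 : ℝ) := by
    ext j
    simp [Finset.sum_apply, Pi.single_apply]
  have h2 : zz J l w = ∑ m : Fin d, w m • zz J l (EuclideanSpace.single m (1 : ℝ)) := by
    conv_lhs => rw [h1]
    rw [map_sum]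
    refine Finset.sum_congr rfl fun m _ => ?_
    rw [map_smul]
  have h3 : ‖zz J l w‖ ≤ ∑ m : Fin d, |w m| * ‖zz J l (EuclideanSpace.single m (1 : ℝ))‖ := by
    rw [h2]
    refine (norm_sum_le _ _).trans (Finset.sum_le_sum fun m _ => ?_)
    rw [norm_smul, Real.norm_eq_abs]
  have h4 : (∑ m : Fin d, |w m| * ‖zz J l (EuclideanSpace.single m (1 : ℝ))‖) ^ 2
      ≤ (∑ m : Fin d, |w m| ^ 2)
        * ∑ m : Fin d, ‖zz J l (EuclideanSpace.single m (1 : ℝ))‖ ^ 2 :=
    Finset.sum_mul_sq_le_sq_mul_sq _ _ _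
  have h5 : ∑ m : Fin d, |w m| ^ 2 = ‖w‖ ^ 2 := by
    rw [EuclideanSpace.norm_sq_eq]
    refine Finset.sum_congr rfl fun m _ => ?_
    rw [Real.norm_eq_abs]
  rw [h5] at h4
  calc ‖zz J l w‖ ^ 2 ≤ (∑ m : Fin d, |w m| * ‖zz J l (EuclideanSpace.single m (1 : ℝ))‖) ^ 2 :=
        pow_le_pow_left₀ (norm_nonneg _) h3 2
    _ ≤ ‖w‖ ^ 2 * FF J l := h4
    _ = FF J l * ‖w‖ ^ 2 := mul_comm _ _

theorem sum_get {α : Type} [AddCommMonoid α] (l : List ι) (g : ι → α) :
    ∑ m : Fin l.length, g (l.get m) = (l.map g).sum := by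
  conv_rhs => rw [← List.ofFn_get l]
  rw [List.map_ofFn, List.sum_ofFn]
  rfl

end Aux

open Aux

/-- QH-2 (sampling). -/
theorem sampling {d : ℕ} (hd : 0 < d) {ι : Type} [Fintype ι] (J : JohnSys d ι) (N : ℕ)
    (hN : (d : ℝ) * Real.log (8 * d) ≤ N) :
    ∃ k : Fin N → ι,
      (∀ w : EuclideanSpace ℝ (Fin d), ‖w‖ ^ 2 / 4 ≤ ∑ m, ⟪J.u (k m), w⟫ ^ 2) ∧
      ∑ i, J.c i * Real.exp ⟪J.u i, ∑ m, J.u (k m)⟫ ≤ 2 * (1 + 1 / (d : ℝ)) ^ N := by
  have hd' : (0 : ℝ) < d := by exact_mod_cast hd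
  obtain ⟨l, hl, h⟩ := exists_list hd J N
  subst hl
  set q : ℝ := Real.exp (-1 / d) with hq
  set r : ℝ := 1 + 1 / (d : ℝ) with hr
  have hq0 : 0 < q := Real.exp_pos _
  have hr0 : 0 < r := by positivity
  have hrn : 0 < r ^ l.length := by positivity
  have hqn : 0 < q ^ l.length := by positivity
  have hF : FF J l ≤ 1 / 4 := by
    have h1 : r ^ l.length * FF J l ≤ r ^ l.length * (2 * d * q ^ l.length) := by
      have h2 : 0 ≤ d * q ^ l.length * GG J l := by
        have := GG_nonneg J l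
        positivity
      have h3 : 2 * d * (q * r) ^ l.length = r ^ l.length * (2 * d * q ^ l.length) := by
        rw [mul_pow]; ring
      linarith
    have h4 : FF J l ≤ 2 * d * q ^ l.length := le_of_mul_le_mul_left h1 hrn
    have h5 : q ^ l.length ≤ 1 / (8 * d) := by
      rw [hq, ← Real.exp_nat_mul]
      have h6 : (l.length : ℝ) * (-1 / d) ≤ -Real.log (8 * d) := by
        have h7 : Real.log (8 * d) ≤ (l.length : ℝ) / d := by
          rw [le_div_iff₀ hd']
          linarith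
        have h8 : (l.length : ℝ) * (-1 / d) = -((l.length : ℝ) / d) := by ring
        rw [h8]
        linarith
      calc Real.exp ((l.length : ℝ) * (-1 / d)) ≤ Real.exp (-Real.log (8 * d)) :=
            Real.exp_le_exp.mpr h6
        _ = 1 / (8 * d) := by
          rw [Real.exp_neg, Real.exp_log (by positivity)]
          ring
    calc FF J l ≤ 2 * d * q ^ l.length := h4
      _ ≤ 2 * d * (1 / (8 * d)) := mul_le_mul_of_nonneg_left h5 (by positivity)
      _ = 1 / 4 := by field_simp; norm_num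
  have hG : GG J l ≤ 2 * r ^ l.length := by
    have h1 : d * q ^ l.length * GG J l ≤ d * q ^ l.length * (2 * r ^ l.length) := by
      have h2 : 0 ≤ r ^ l.length * FF J l := by
        have := FF_nonneg J l
        positivity
      have h3 : 2 * d * (q * r) ^ l.length = d * q ^ l.length * (2 * r ^ l.length) := by
        rw [mul_pow]; ring
      linarith
    exact le_of_mul_le_mul_left h1 (by positivity)
  refine ⟨l.get, fun w => ?_, ?_⟩
  · rw [sum_get l (fun i => ⟪J.u i, w⟫ ^ 2)]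
    have h1 := kaczmarz J l w
    have h2 := norm_zz_le J l w
    have h3 : ‖zz J l w‖ ^ 2 ≤ (‖w‖ / 2) ^ 2 := by
      have h4 : FF J l * ‖w‖ ^ 2 ≤ 1 / 4 * ‖w‖ ^ 2 :=
        mul_le_mul_of_nonneg_right hF (by positivity)
      calc ‖zz J l w‖ ^ 2 ≤ 1 / 4 * ‖w‖ ^ 2 := h2.trans h4
        _ = (‖w‖ / 2) ^ 2 := by ring
    have h5 : ‖zz J l w‖ ≤ ‖w‖ / 2 := by
      exact (abs_le_of_sq_le_sq' h3 (by positivity)).2
    have h7 : ⟪w, zz J l w⟫ ≤ ‖w‖ * (‖w‖ / 2) :=
      (real_inner_le_norm _ _).trans (mul_le_mul_of_nonneg_left h5 (norm_nonneg _))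
    rw [inner_sub_right, real_inner_self_eq_norm_sq] at h1
    have h8 : 0 ≤ ‖zz J l w‖ ^ 2 := by positivity
    nlinarith [h1, h7, h8]
  · rw [sum_get l J.u]
    exact hG

end Pool.Agent.Helper28.QH
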